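import Pool.Agent.Helper10.NC.Main

/-!
# Nearly commuting 4 x 4 matrices in characteristic two

The definitions used in the statement (the ring `Rg 4 K` in the entries of two generic matrices,
the ideals `I`, `J`, `P`, tight closure, F-regular rings) are in `Pool/Agent/Helper10/NC/Defs.lean`.
-/

set_option autoImplicit false

namespace Pool.Agent.Results.MP_b5467b_ag.SizeFourCharTwo

open Pool.Agent.Helper10.NC

/-- The ideal `Q` of the skew component, as the colon ideal `rad I : P`, that is, the set of all
`x` with `x y ∈ rad I` for every `y ∈ P`. -/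
noncomputable def idealQ (n : ℕ) (K : Type*) [Field K] : Ideal (Rg n K) :=
  (idealI n K).radical.colon (idealP n K : Set (Rg n K))

/-- Remark: if, as is known, `I` has exactly two minimal primes `P` and `Q`, then the ideal
`idealQ` is `Q`. -/
theorem idealQ_eq (n : ℕ) (K : Type*) [Field K] (Q : Ideal (Rg n K))
    (hQ : (idealI n K).minimalPrimes = {idealP n K, Q}) (hne : Q ≠ idealP n K) :
    idealQ n K = Q := by
  have hPm : idealP n K ∈ (idealI n K).minimalPrimes := by rw [hQ]; exact Or.inl rfl
  have hQm : Q ∈ (idealI n K).minimalPrimes := by rw [hQ]; exact Or.inr rfl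
  have hQp : Q.IsPrime := hQm.1.1
  have hrad : (idealI n K).radical = idealP n K ⊓ Q := by
    rw [← Ideal.sInf_minimalPrimes, hQ, sInf_insert, sInf_singleton]
  ext x
  unfold idealQ
  rw [Submodule.mem_colon, hrad]
  constructor
  · intro h
    have hnle : ¬ idealP n K ≤ Q := fun hle => hne (le_antisymm (hQm.2 hPm.1 hle) hle)
    obtain ⟨y, hy, hyQ⟩ := Set.not_subset.1 hnle
    exact (hQp.mem_or_mem (h y hy).2).resolve_right hyQ
  · intro hx y hy
    exact ⟨Ideal.mul_mem_left _ _ hy, Ideal.mul_mem_right _ _ hx⟩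

/-- For every field `K` of characteristic two, the three rings `R/P`, `R/Q` and `R/(P+Q)` of the
nearly commuting 4 x 4 matrices over `K` are not all F-regular. -/
theorem result (K : Type*) [Field K] [CharP K 2] :
    ¬ (IsFRegular 2 (Rg 4 K ⧸ idealP 4 K) ∧ IsFRegular 2 (Rg 4 K ⧸ idealQ 4 K) ∧
      IsFRegular 2 (Rg 4 K ⧸ (idealP 4 K ⊔ idealQ 4 K))) :=
  main_colon K (idealQ 4 K) rfl

end Pool.Agent.Results.MP_b5467b_ag.SizeFourCharTwo
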