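import Pool.Agent.Helper15.NC.Final

/-!
# The skew component of the nearly commuting matrices is not F-regular in large size

The definitions used in the statement are in `Pool/Agent/Helper15/NC/Tight.lean` (Frobenius
powers, tight closure, F-regular rings) and `Pool/Agent/Helper15/NC/Defs.lean` (the polynomial
ring `PairRing K n` in the entries of two generic matrices, the ideal `I` of the off-diagonal
entries of the commutator, the prime `P`, and the ideal `Q` of the skew component).
-/

namespace Pool.Agent.Results.MP_b5467b_ag.SkewNotFRegular

open Pool.Agent.Helper15.NC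

universe u

/-- Remark: if, as is known, `I` has exactly two minimal primes `P` and `Q`, then the ideal
`skewIdeal` of the statement is `Q`. -/
theorem skewIdeal_eq (K : Type u) [Field K] (n : ℕ) (Q : Ideal (PairRing K n))
    (hQ : (nearlyCommutingIdeal K n).minimalPrimes = {commutingPrime K n, Q})
    (hne : Q ≠ commutingPrime K n) : skewIdeal K n = Q := by
  apply le_antisymm
  · exact sInf_le ⟨by rw [hQ]; exact Or.inr rfl, hne⟩
  · apply le_sInf
    rintro q ⟨hq, hqP⟩
    rw [hQ] at hq
    rcases hq with rfl | hq
    · exact absurd rfl hqP
    · exact (show q = Q from hq).ge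

/-- For every prime `p`, every field `K` of characteristic `p` and every `m ≥ 41`, the coordinate
ring `R/Q` of the skew component of the variety of nearly commuting `n` by `n` matrices over `K`,
`n = 4 m + 2`, is not F-regular. -/
theorem result (p : ℕ) [Fact p.Prime] (K : Type u) [Field K] [CharP K p] (m : ℕ) (hm : 41 ≤ m) :
    ¬ FRegular p (PairRing K (4 * m + 2) ⧸ skewIdeal K (4 * m + 2)) :=
  skew_not_fregular p K m hm

end Pool.Agent.Results.MP_b5467b_ag.SkewNotFRegular
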